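import Mathlib
import Pool.Agent.H7HitDefs
import Pool.Agent.H7HitProof

set_option autoImplicit false

open MeasureTheory ProbabilityTheory Finset Pool.Agent.H7Hit
open scoped ENNReal

namespace Pool.Agent.Results.MP_990fd9_pr.HittingSpeedup

/-- **Hitting time speedup.** Let `G` be a finite strongly connected digraph.
(1) On every probability space carrying `k` independent simple random walks `X_i` started at
`u_i`, the expected joint hitting time of `v` is `hSet G u v` (for `k = 1`: `h G u v`).
(2) `h_max` is finite. (3) `h_max ≤ k * h^k_max` for every `k ≥ 1`. -/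
theorem result {V : Type} [Fintype V] [Nonempty V] (G : Digraph V)
    (hG : ∀ x y, Relation.ReflTransGen G.Adj x y) :
    (∀ (_ : MeasurableSpace V) (_ : MeasurableSingletonClass V) (Ω : Type)
      (_ : MeasurableSpace Ω) (μ : Measure Ω) (_ : IsProbabilityMeasure μ) (k : ℕ)
      (u : Fin k → V) (v : V) (X : Fin k → ℕ → Ω → V), (∀ i, IsWalk G (u i) μ (X i)) →
      iIndepFun (fun (i : Fin k) (ω : Ω) (t : ℕ) => X i t ω) μ →
        ∫⁻ ω, ⨅ i, hit (X i) v ω ∂μ = hSet G u v) ∧
    hmax G < ⊤ ∧
    ∀ k : ℕ, 1 ≤ k → hmax G ≤ k * hkmax G k := by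
  refine ⟨?_, hmax_finite G hG, fun k hk => main_ineq G k hk⟩
  intro _ _ Ω _ μ _ k u v X hX hind
  exact expect_min G μ u v X hX hind

end Pool.Agent.Results.MP_990fd9_pr.HittingSpeedup
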